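import Mathlib

/-!
# Absolute values over a given absolute value
-/

namespace Pool.Agent.R829.FC

/-- A finite extension of `k(t)` is finitely generated. -/
lemma fg_of_fin (k L : Type*) [Field k] [Field L] [Algebra k L] (t : L)
    [FiniteDimensional (IntermediateField.adjoin k {t}) L] :
    (⊤ : IntermediateField k L).FG := by
  classical
  let b := Module.finBasis (IntermediateField.adjoin k {t}) L
  refine ⟨insert t (Finset.univ.image b), ?_⟩
  rw [eq_top_iff]
  intro x _
  rw [← b.sum_repr x]
  refine sum_mem fun i _ => ?_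
  rw [Algebra.smul_def]
  apply mul_mem
  · have h1 : IntermediateField.adjoin k {t} ≤
        IntermediateField.adjoin k (↑(insert t (Finset.univ.image b)) : Set L) :=
      IntermediateField.adjoin.mono k _ _ (by simp)
    exact h1 (b.repr x i).2
  · exact IntermediateField.subset_adjoin _ _ (by simp)

/-- `L` is finite over the image of `k(t)`. -/
lemma fin_ext (k K L : Type*) [Field k] [Field K]
    [Field L] [Algebra k K] [Algebra k L] [Algebra K L] [IsScalarTower k K L]
    (t : K) [FiniteDimensional (IntermediateField.adjoin k {t}) K]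
    [FiniteDimensional K L] :
    FiniteDimensional (IntermediateField.adjoin k {algebraMap K L t}) L := by
  set F := IntermediateField.adjoin k {t} with hF
  set F' := IntermediateField.adjoin k {algebraMap K L t} with hF'
  have hle : F ≤ F'.comap (IsScalarTower.toAlgHom k K L) := by
    rw [hF, IntermediateField.adjoin_le_iff]
    rintro x hx
    rw [Set.mem_singleton_iff] at hx
    subst hx
    exact IntermediateField.subset_adjoin k _ rfl
  let φ : F →+* F' := ((algebraMap K L).comp F.val.toRingHom).codRestrict F' (fun x => hle x.2)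
  let iF : Algebra F F' := φ.toAlgebra
  have i2 : IsScalarTower F F' L := IsScalarTower.of_algebraMap_eq fun x => rfl
  have h1 : Module.Finite F L := Module.Finite.trans K L
  exact Module.Finite.of_restrictScalars_finite F F' L

/-- An absolute value which is trivial on a subfield is nonarchimedean. -/
lemma na_of_triv {k L : Type*} [Field k] [Field L] [Algebra k L] (w : AbsoluteValue L ℝ)
    (hk : ∀ c : k, c ≠ 0 → w (algebraMap k L c) = 1) (x y : L) :
    w (x + y) ≤ max (w x) (w y) := by
  have hn : ∀ n : ℕ, w n ≤ 1 := by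
    intro n
    have h1 : ((n : ℕ) : L) = algebraMap k L (n : k) := by simp
    rw [h1]
    by_cases hn : (n : k) = 0
    · rw [hn]
      simp
    · exact (hk _ hn).le
  let _ : NormedField L := w.toNormedField
  have : IsUltrametricDist L :=
    IsUltrametricDist.isUltrametricDist_of_forall_norm_natCast_le_one hn
  exact IsUltrametricDist.norm_add_le_max x y

/-- The ring of integers of a nonarchimedean absolute value. -/
def intS {L : Type*} [Field L] (w : AbsoluteValue L ℝ)
    (h : ∀ x y, w (x + y) ≤ max (w x) (w y)) : Subring L where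
  carrier := {x | w x ≤ 1}
  mul_mem' := by
    intro a b ha hb
    show w (a * b) ≤ 1
    rw [map_mul]
    exact mul_le_one₀ ha (w.nonneg _) hb
  one_mem' := by
    show w 1 ≤ 1
    rw [map_one]
  add_mem' := by
    intro a b ha hb
    exact (h a b).trans (max_le ha hb)
  zero_mem' := by
    show w 0 ≤ 1
    rw [map_zero]
    exact zero_le_one
  neg_mem' := by
    intro a ha
    show w (-a) ≤ 1
    rw [w.map_neg]
    exact ha

/-- The number of inequivalent absolute values above a given one. -/
theorem card_above {K L : Type*} [Field K] [Field L] [Algebra K L] [FiniteDimensional K L]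
    (v : AbsoluteValue K ℝ) (Z : Finset (AbsoluteValue L ℝ))
    (hna : ∀ w ∈ Z, ∀ x y, w (x + y) ≤ max (w x) (w y)) (hnt : ∀ w ∈ Z, w.IsNontrivial)
    (hne : ∀ w ∈ Z, ∀ w' ∈ Z, w.IsEquiv w' → w = w')
    (hv : ∀ w ∈ Z, (w.comp (algebraMap K L).injective).IsEquiv v) :
    Z.card ≤ Module.finrank K L := by
  classical
  have h2 : Pairwise fun i j : {w // w ∈ Z} => ¬ (i.1).IsEquiv (j.1) := by
    rintro ⟨w, hw⟩ ⟨w', hw'⟩ hne' heq
    exact hne' (Subtype.ext (hne w hw w' hw' heq))
  have h3 := AbsoluteValue.exists_one_lt_lt_one_pi_of_not_isEquiv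
    (v := fun i : {w // w ∈ Z} => i.1) (fun i => hnt _ i.2) h2
  choose a ha hb using h3
  have hli : LinearIndependent K a := by
    rw [Fintype.linearIndependent_iff]
    intro g hg
    by_contra hcon
    push Not at hcon
    obtain ⟨i₁, hi₁⟩ := hcon
    obtain ⟨i₀, _, hi₀⟩ := Finset.exists_max_image (Finset.univ : Finset {w // w ∈ Z})
      (fun i => v (g i)) ⟨i₁, Finset.mem_univ _⟩
    have hg0 : g i₀ ≠ 0 := by
      intro h0
      have h4 := hi₀ i₁ (Finset.mem_univ _)
      rw [h0, map_zero] at h4
      exact hi₁ (v.eq_zero.mp (le_antisymm h4 (v.nonneg _)))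
    have hvle : ∀ i, v (g i / g i₀) ≤ 1 := by
      intro i
      rw [map_div₀]
      exact div_le_one_of_le₀ (hi₀ i (Finset.mem_univ _)) (v.nonneg _)
    have hwle : ∀ i, (i₀.1) (algebraMap K L (g i / g i₀)) ≤ 1 := fun i =>
      ((hv _ i₀.2).le_one_iff (x := g i / g i₀)).mpr (hvle i)
    have h6 : a i₀ = -∑ i ∈ Finset.univ.erase i₀, algebraMap K L (g i / g i₀) * a i := by
      have h7 : ∑ i ∈ Finset.univ.erase i₀, g i • a i + g i₀ • a i₀ = 0 := by
        rw [Finset.sum_erase_add _ _ (Finset.mem_univ _)]
        exact hg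
      have h8 : algebraMap K L (g i₀) ≠ 0 := (_root_.map_ne_zero _).mpr hg0
      have h9 : ∑ i ∈ Finset.univ.erase i₀, algebraMap K L (g i / g i₀) * a i =
          (algebraMap K L (g i₀))⁻¹ * ∑ i ∈ Finset.univ.erase i₀, g i • a i := by
        rw [Finset.mul_sum]
        apply Finset.sum_congr rfl
        intro i _
        rw [Algebra.smul_def, map_div₀, div_eq_mul_inv]
        ring
      rw [h9, eq_neg_of_add_eq_zero_left h7, Algebra.smul_def]
      field_simp
    have h10 : a i₀ ∈ intS i₀.1 (hna _ i₀.2) := by
      rw [h6]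
      apply neg_mem
      apply sum_mem
      intro i hi
      apply mul_mem
      · exact hwle i
      · exact (hb i i₀ (Finset.ne_of_mem_erase hi).symm).le
    exact absurd (ha i₀) (not_lt.mpr h10)
  have h11 := hli.fintype_card_le_finrank
  rwa [Fintype.card_coe] at h11

/-- A finite set of representatives for a set of absolute values over finitely many given ones. -/
theorem exists_reps {K L : Type*} [Field K] [Field L] [Algebra K L] [FiniteDimensional K L]
    (S : Finset (AbsoluteValue K ℝ)) (B : AbsoluteValue L ℝ → Prop)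
    (hna : ∀ w, B w → ∀ x y, w (x + y) ≤ max (w x) (w y)) (hnt : ∀ w, B w → w.IsNontrivial)
    (hB : ∀ w, B w → ∃ v ∈ S, (w.comp (algebraMap K L).injective).IsEquiv v) :
    ∃ T : Finset (AbsoluteValue L ℝ), T.card ≤ Module.finrank K L * S.card ∧
      ∀ w, B w → ∃ t ∈ T, w.IsEquiv t := by
  classical
  let good : Finset (AbsoluteValue L ℝ) → Prop := fun Z =>
    (∀ w ∈ Z, B w) ∧ ∀ w ∈ Z, ∀ w' ∈ Z, w.IsEquiv w' → w = w'
  have hbd : ∀ Z, good Z → Z.card ≤ Module.finrank K L * S.card := by
    rintro Z ⟨hZ1, hZ2⟩
    choose φ hφ1 hφ2 using fun w : {w // w ∈ Z} => hB w.1 (hZ1 w.1 w.2)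
    let ψ : AbsoluteValue L ℝ → AbsoluteValue K ℝ := fun w =>
      if h : w ∈ Z then φ ⟨w, h⟩ else w.comp (algebraMap K L).injective
    have hψ1 : ∀ w ∈ Z, ψ w ∈ S := by
      intro w hw
      simp only [ψ, dif_pos hw]
      exact hφ1 _
    have hψ2 : ∀ w ∈ Z, (w.comp (algebraMap K L).injective).IsEquiv (ψ w) := by
      intro w hw
      simp only [ψ, dif_pos hw]
      exact hφ2 ⟨w, hw⟩
    have h1 : Z.card ≤ Module.finrank K L * (Z.image ψ).card := by
      apply Finset.card_le_mul_card_image
      intro v hv
      apply card_above v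
      · intro w hw
        exact hna w (hZ1 w (Finset.mem_filter.mp hw).1)
      · intro w hw
        exact hnt w (hZ1 w (Finset.mem_filter.mp hw).1)
      · intro w hw w' hw'
        exact hZ2 w (Finset.mem_filter.mp hw).1 w' (Finset.mem_filter.mp hw').1
      · intro w hw
        have := hψ2 w (Finset.mem_filter.mp hw).1
        rwa [(Finset.mem_filter.mp hw).2] at this
    refine h1.trans (Nat.mul_le_mul le_rfl (Finset.card_le_card ?_))
    intro v hv
    obtain ⟨w, hw, rfl⟩ := Finset.mem_image.mp hv
    exact hψ1 w hw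
  let P : ℕ → Prop := fun n => ∃ Z, good Z ∧ Z.card = n
  have hP0 : P 0 := ⟨∅, ⟨by simp, by simp⟩, rfl⟩
  obtain ⟨Z, hZ, hZc⟩ := Nat.findGreatest_spec (P := P)
    (Nat.zero_le (Module.finrank K L * S.card)) hP0
  refine ⟨Z, hbd Z hZ, fun w hw => ?_⟩
  by_contra hcon
  push Not at hcon
  have hwZ : w ∉ Z := fun h => hcon w h AbsoluteValue.IsEquiv.rfl
  have hgood : good (insert w Z) := by
    refine ⟨fun x hx => ?_, fun x hx y hy hxy => ?_⟩
    · rcases Finset.mem_insert.mp hx with h | h
      · rw [h]
        exact hw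
      · exact hZ.1 x h
    · rcases Finset.mem_insert.mp hx with h | h
      · rcases Finset.mem_insert.mp hy with h' | h'
        · rw [h, h']
        · rw [h] at hxy
          exact absurd hxy (hcon y h')
      · rcases Finset.mem_insert.mp hy with h' | h'
        · rw [h'] at hxy
          exact absurd hxy.symm (hcon x h)
        · exact hZ.2 x h y h' hxy
  have h1 := Nat.le_findGreatest (P := P) (hbd _ hgood) ⟨_, hgood, rfl⟩
  rw [Finset.card_insert_of_notMem hwZ, ← hZc] at h1
  omega

end Pool.Agent.R829.FC
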