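import Pool.Agent.R829.FC.A
import Pool.Agent.TH450.FG.H

/-!
# Few places of bad reduction, uniformly over extensions of bounded degree
-/

set_option autoImplicit false

namespace Pool.Agent.R829.FC

open Pool.Agent.H951R3.PB Pool.Agent.TH450.FG Real

universe u v w

theorem main_ext (d : ℕ) (hd : 2 ≤ d) : ∃ C : ℝ, 0 < C ∧
    ∀ (k : Type v) (K : Type w) (L : Type u) [Field k] [Field K] [Field L] [Algebra k K]
      [Algebra k L] [Algebra K L] [IsScalarTower k K L] (t : K), Transcendental k t →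
      FiniteDimensional (IntermediateField.adjoin k {t}) K → FiniteDimensional K L →
    ∀ D : ℕ, Module.finrank K L ≤ D →
    ∀ f : Fin 2 → MvPolynomial (Fin 2) L, (∀ i, (f i).IsHomogeneous d) →
      (∀ x : Fin 2 → AlgebraicClosure L, (∀ i, MvPolynomial.aeval x (f i) = 0) → x = 0) →
      ¬ Isotrivial k d f →
    ∀ S : Finset (AbsoluteValue K ℝ),
      (∀ w : AbsoluteValue L ℝ, w.IsNontrivial → (∀ c : k, c ≠ 0 → w (algebraMap k L c) = 1) →
        (∀ v ∈ S, ¬ (w.comp (algebraMap K L).injective).IsEquiv v) → PotGood w d f) →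
    ∀ X : Finset (Fin 2 → L), (∀ x ∈ X, x ≠ 0) →
      (∀ x ∈ X, ∀ y ∈ X, ∀ c : L, x = c • y → x = y) →
      (∀ x ∈ X, ∃ m n : ℕ, m < n ∧ ∃ c : L, c ≠ 0 ∧
        (fun v : Fin 2 → L => fun i => MvPolynomial.eval v (f i))^[n] x =
          c • (fun v : Fin 2 → L => fun i => MvPolynomial.eval v (f i))^[m] x) →
      (X.card : ℝ) ≤ C * (D * S.card + 1) * log (D * S.card + 2) := by
  obtain ⟨C, hC, H⟩ := main_ff.{u, v} d hd
  refine ⟨C, hC, ?_⟩
  intro k K L _ _ _ _ _ _ _ t ht hK hL D hD f hf hz hiso S hgood X hX0 hXc hXp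
  have hfin : FiniteDimensional (IntermediateField.adjoin k {algebraMap K L t}) L :=
    fin_ext k K L t
  have htt : Transcendental k (algebraMap K L t) :=
    (transcendental_algebraMap_iff (algebraMap K L).injective).mpr ht
  have halg : Algebra.IsAlgebraic (IntermediateField.adjoin k {algebraMap K L t}) L :=
    inferInstance
  obtain ⟨T, hT1, hT2⟩ := exists_reps (K := K) (L := L) S
    (fun w => w.IsNontrivial ∧ (∀ c : k, c ≠ 0 → w (algebraMap k L c) = 1) ∧ ¬ PotGood w d f)
    (fun w hw => na_of_triv w hw.2.1) (fun w hw => hw.1) (by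
      rintro w ⟨h1, h2, h3⟩
      by_contra hcon
      push Not at hcon
      exact h3 (hgood w h1 h2 hcon))
  have h1 := H k L (fg_of_fin k L (algebraMap K L t)) ⟨_, htt, halg⟩ f hf hz hiso T
    (fun w hw1 hw2 hw3 => hT2 w ⟨hw1, hw2, hw3⟩) X hX0 hXc hXp
  have h2 : (T.card : ℝ) ≤ D * S.card := by
    have h3 : T.card ≤ D * S.card := hT1.trans (Nat.mul_le_mul hD le_rfl)
    exact_mod_cast h3
  have h4 : (0 : ℝ) ≤ T.card := Nat.cast_nonneg _
  refine h1.trans ?_
  apply mul_le_mul
  · apply mul_le_mul_of_nonneg_left _ hC.le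
    linarith
  · apply Real.log_le_log (by linarith)
    linarith
  · apply Real.log_nonneg
    linarith
  · apply mul_nonneg hC.le
    linarith

end Pool.Agent.R829.FC
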